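import Pool.Agent.Q91.LB.Eig

set_option autoImplicit false

/-! Eigenvalues of matrices over the group algebra of `G` and over the group algebra of a
co-amenable subgroup. -/

universe u

namespace Pool.Agent.Results.MP_95030e_al.CoamenableEigenvalues

open Pool.Agent.Q91.LB.Bet (CoAmenable Folner)
open Pool.Agent.Q91.LB.Eig

/-- Let `K` be a subgroup of `G`, not necessarily normal, and let `r` be a section of `G → G / K`.

1. For every finite square matrix `A` over the group algebra of `G`, every complex number `z` and
every finite set `F` of cosets, the multiplicity of `z` for the compression of `A` to `F` (over `K`)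
differs from `|F|` times the multiplicity of `z` for `A` (over `G`) by at most the size of `A` times
the number of the boundary cosets of `F`.
2. If `K` is co-amenable, the normalised multiplicities of the compressions converge to the
multiplicities of `A` along the Følner sets, uniformly in `z`.
3. If `K` is co-amenable, matrices over the group algebras of `K` and of `G` with coefficients in a
set `R` which contains `0` have the same eigenvalues. -/
theorem result {G : Type u} [Group G] (K : Subgroup G) (r : G ⧸ K → G)
    (hr : ∀ x, (r x : G ⧸ K) = x) :
    (∀ {I : Type u} [Fintype I] (A : I → I → (G →₀ ℂ)) (z : ℂ) (F : Finset (G ⧸ K)),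
      Near K F r A z) ∧
    (CoAmenable K → ∀ {I : Type u} [Fintype I] (A : I → I → (G →₀ ℂ)), Converge K r A) ∧
    (CoAmenable K → ∀ R : Set ℂ, 0 ∈ R → eigenvalues K R = eigenvalues G R) := by
  classical
  have h1 : ∀ {I : Type u} [Fintype I] (A : I → I → (G →₀ ℂ)) (z : ℂ) (F : Finset (G ⧸ K)),
      Near K F r A z := by
    intro I _ A z F
    unfold Near
    rw [abs_le]
    have h2 := ge K F r hr A z
    have h3 := le K F r hr A z
    constructor <;> linarith
  refine ⟨h1, ?_, ?_⟩
  · intro _ I _ A ε hε
    obtain ⟨S, δ, hδ, hS⟩ := boundary_small K A ε hε
    refine ⟨S, δ, hδ, fun F hF z => ?_⟩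
    have hFc : (0 : ℝ) < F.card := by exact_mod_cast hF.1.card_pos
    have h3 := h1 A z F
    unfold Near at h3
    have h2 := h3.trans (hS F hF)
    have e : mult (compress K F r A) z / F.card - mult A z
        = (mult (compress K F r A) z - F.card * mult A z) / F.card := by
      field_simp
    rw [e, abs_div, abs_of_pos hFc, div_le_iff₀ hFc]
    exact h2
  · intro hK R hR
    exact Set.Subset.antisymm (eig_le K R hR) (le_eig K hK r hr R)

end Pool.Agent.Results.MP_95030e_al.CoamenableEigenvalues
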