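import Pool.Agent.Q91.TE.PeakG

set_option autoImplicit false
set_option linter.unusedSectionVars false

universe u v w

namespace Pool.Agent.Results.MP_95030e_al.OutputMatrices

open Pool.Agent.Q91 Pool.Agent.Q91.TE

open Classical in
/-- The von Neumann dimension of a closed invariant space `V` of square-summable functions on
`G × J`: the sum over `j` of one minus the square of the distance from the basis vector at `(1, j)`
to `V` (that is, of the squared lengths of the projections of these vectors to `V`). -/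
noncomputable def dimension {G : Type u} [Group G] {J : Type w} [Fintype J]
    (V : Set (lp (fun _ : G × J => ℂ) 2)) : ℝ :=
  ∑ j : J, (1 - Metric.infDist
    (lp.single (E := fun _ : G × J => ℂ) 2 ((1 : G), j) (1 : ℂ)) V ^ 2)

/-- For an `I × J` matrix `A` over the complex group algebra of `G`: all square-summable `f` on
`G × J` with `A f = 0`, where `(A f)(x, i) = ∑ j, ∑ s, A i j s * f (s⁻¹ x, j)`. -/
def kernel {G : Type u} [Group G] {I : Type v} {J : Type w} [Fintype J]
    (A : I → J → (G →₀ ℂ)) : Set (lp (fun _ : G × J => ℂ) 2) :=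
  {f | ∀ (x : G) (i : I), ∑ j, ∑ s ∈ (A i j).support, A i j s * f (s⁻¹ * x, j) = 0}

/-- The coset `s x`, for `s` in `G` and a coset `x = gK`. -/
def move {G : Type u} [Group G] {K : Subgroup G} (s : G) (x : G ⧸ K) : G ⧸ K := s • x

/-- The subgroup `K` is co-amenable: the set `G / K` of cosets `gK` has nonempty finite subsets that
are almost invariant under any given finite subset of `G` (Følner's condition). -/
def CoAmenable {G : Type u} [Group G] (K : Subgroup G) : Prop :=
  ∀ (S : Finset G) (ε : ℝ), 0 < ε → ∃ F : Finset (G ⧸ K), F.Nonempty ∧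
    (({x | x ∈ F ∧ ∃ s ∈ S, move s x ∉ F} : Set (G ⧸ K)).ncard : ℝ) ≤ ε * F.card

open Classical in
/-- The part of `a` on the set of the `s` in `G` which map the coset `x` to the coset `y`. -/
noncomputable def part {G : Type u} [Group G] (K : Subgroup G) (a : G →₀ ℂ) (x y : G ⧸ K) :
    G →₀ ℂ :=
  a.filter fun s => move s x = y

/-- The kernel of the block of `A` from the coset `x` to the coset `y` with the rows `O` and the
columns `P`: all square-summable functions on `G × J`, zero outside the columns `P`, with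
`∑ j ∈ P, ∑ s, a s * f (s⁻¹ g, j) = 0` for all `g` and all rows `i` in `O`, where `a` is the part of
`A i j` from `x` to `y`. -/
def blockKernel {G : Type u} [Group G] (K : Subgroup G) {I : Type v} {J : Type w}
    (A : I → J → (G →₀ ℂ)) (x y : G ⧸ K) (O : Finset I) (P : Finset J) :
    Set (lp (fun _ : G × J => ℂ) 2) :=
  {f | (∀ (g : G) (j : J), j ∉ P → f (g, j) = 0) ∧
    ∀ (g : G), ∀ i ∈ O, ∑ j ∈ P, ∑ s ∈ (part K (A i j) x y).support,
      part K (A i j) x y s * f (s⁻¹ * g, j) = 0}

/-- Every nonempty finite set `Z` of pairs `(x, j)` of a coset `x` and a column `j` in `C` contains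
a set `{x} × P`, `P` nonempty, such that for some coset `y` and some set `O` of rows no other pair
`(z, k)` in `Z` has an output `(s z, i)`, `s` in the support of `A i k`, in `{y} × O`, and such that
the kernel of the block from `x` to `y` with the rows `O` and the columns `P` has at most the
dimension `∑ j ∈ P, d j`. -/
def BlockOutputs {G : Type u} [Group G] (K : Subgroup G) {I : Type v} {J : Type w} [Fintype J]
    (A : I → J → (G →₀ ℂ)) (C : Finset J) (d : J → ℝ) : Prop :=
  ∀ Z : Finset ((G ⧸ K) × J), Z.Nonempty → (∀ p ∈ Z, p.2 ∈ C) →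
    ∃ (x y : G ⧸ K) (O : Finset I) (P : Finset J), P.Nonempty ∧ (∀ j ∈ P, (x, j) ∈ Z) ∧
      (∀ q ∈ Z, (q.1 = x ∧ q.2 ∈ P) ∨ ∀ i ∈ O, ∀ s ∈ (A i q.2).support, move s q.1 ≠ y) ∧
      dimension (blockKernel K A x y O P) ≤ ∑ j ∈ P, d j

/-- Every nonempty finite set `Z` of pairs of a coset and a column in `C` contains a pair `(x, j)`
such that for some row `i` and some `t` in the support of `A i j` no other pair `(z, k)` in `Z` has
the output `(t x, i) = (s z, i)` with `s` in the support of `A i k`. -/
def UniqueOutputs {G : Type u} [Group G] (K : Subgroup G) {I : Type v} {J : Type w}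
    (A : I → J → (G →₀ ℂ)) (C : Finset J) : Prop :=
  ∀ Z : Finset ((G ⧸ K) × J), Z.Nonempty → (∀ p ∈ Z, p.2 ∈ C) →
    ∃ p ∈ Z, ∃ i, ∃ t ∈ (A i p.2).support,
      ∀ q ∈ Z, ∀ s ∈ (A i q.2).support, move s q.1 = move t p.1 → q = p

/-- `α * f` is nonzero for every nonzero square-summable `f`, where
`(α * f)(g) = ∑ α(k) f(k⁻¹ g)`. -/
def Regular {G : Type u} [Group G] (α : G →₀ ℂ) : Prop :=
  ∀ f : G → ℂ, Memℓp f 2 → f ≠ 0 → ∃ g : G, ∑ k ∈ α.support, α k * f (k⁻¹ * g) ≠ 0

/-- The nonzero parts of the entries in the columns in `C` are regular. -/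
def RegularParts {G : Type u} [Group G] (K : Subgroup G) {I : Type v} {J : Type w}
    (A : I → J → (G →₀ ℂ)) (C : Finset J) : Prop :=
  ∀ i, ∀ j ∈ C, ∀ x y : G ⧸ K, part K (A i j) x y ≠ 0 → Regular (part K (A i j) x y)

/-- For some total order on the cosets `gK` invariant under `G`, the leading block at each coset `x`
has zero kernel: there is an upper bound `y` for the cosets `s x` with `s` in the support of an entry
in the columns `C` such that the block from `x` to `y` with all rows and the columns `C` has zero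
kernel. -/
def LeadingBlocks {G : Type u} [Group G] (K : Subgroup G) {I : Type v} {J : Type w} [Fintype I]
    (A : I → J → (G →₀ ℂ)) (C : Finset J) : Prop :=
  ∃ _ : LinearOrder (G ⧸ K), (∀ (g : G) (x y : G ⧸ K), x < y → move g x < move g y) ∧
    ∀ x : G ⧸ K, ∃ y : G ⧸ K, (∀ i, ∀ j ∈ C, ∀ s ∈ (A i j).support, move s x ≤ y) ∧
      ∀ f ∈ blockKernel K A x y Finset.univ C, f = 0

section
variable {G : Type u} [Group G] {I : Type v} {J : Type w} [Fintype I] [Fintype J] [DecidableEq I]
  [DecidableEq J]

theorem single_eq (x : G × J) [DecidableEq (G × J)] :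
    (lp.single (E := fun _ : G × J => ℂ) 2 x (1 : ℂ) : lp (fun _ : G × J => ℂ) 2)
      = W649.ZL.dl x := by
  ext y
  by_cases hy : y = x
  · subst hy
    rw [W649.ZL.dl_apply_self]
    exact lp.single_apply_self (E := fun _ : G × J => ℂ) 2 y 1
  · rw [W649.ZL.dl_apply_ne _ _ hy]
    exact lp.single_apply_ne (E := fun _ : G × J => ℂ) 2 x 1 hy

theorem dimension_eq (V : Submodule ℂ (W649.ZL.EE G J))
    (hV : IsClosed (V : Set (W649.ZL.EE G J))) :
    dimension (V : Set (W649.ZL.EE G J)) = W649.ZL.vd V := by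
  rw [W649.ZL.vd_eq_infDist _ hV]
  unfold dimension
  simp only [single_eq]

theorem kernel_eq (A : I → J → (G →₀ ℂ)) : kernel A
    = (LinearMap.ker (LB.opM A : W649.ZL.EE G J →ₗ[ℂ] W649.ZL.EE G I) :
      Set (W649.ZL.EE G J)) := by
  ext f
  constructor
  · intro h
    change LB.opM A f = 0
    ext x
    rw [LB.opM_apply]
    exact h x.1 x.2
  · intro h x i
    have h' : LB.opM A f = 0 := h
    rw [← LB.opM_apply A f (x, i), h']
    rfl

theorem kerDim_eq (A : I → J → (G →₀ ℂ)) : dimension (kernel A)
    = W649.ZL.vd (LinearMap.ker (LB.opM A : W649.ZL.EE G J →ₗ[ℂ] W649.ZL.EE G I)) := by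
  rw [kernel_eq]
  exact dimension_eq _ (LB.opM A).isClosed_ker

theorem block_eq (K : Subgroup G) (A : I → J → (G →₀ ℂ)) (x y : G ⧸ K) (O : Finset I)
    (P : Finset J) : blockKernel K A x y O P = (PM.BK K A x y O P : Set (W649.ZL.EE G J)) := by
  ext f
  rw [SetLike.mem_coe, PM.mem_BK]
  rfl

theorem blockDim_eq (K : Subgroup G) (A : I → J → (G →₀ ℂ)) (x y : G ⧸ K) (O : Finset I)
    (P : Finset J) : dimension (blockKernel K A x y O P) = W649.ZL.vd (PM.BK K A x y O P) := by
  rw [block_eq]
  exact dimension_eq _ (PM.BK_closed K A x y O P)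

theorem blockDim_zero (K : Subgroup G) (A : I → J → (G →₀ ℂ)) (x y : G ⧸ K) (O : Finset I)
    (P : Finset J) (h : ∀ f ∈ blockKernel K A x y O P, f = 0) :
    dimension (blockKernel K A x y O P) ≤ 0 := by
  rw [blockDim_eq]
  have h1 : PM.BK K A x y O P = ⊥ := by
    rw [Submodule.eq_bot_iff]
    intro f hf
    apply h f
    rw [block_eq]
    exact hf
  rw [h1, W649.ZL.vd_bot]

theorem bound (K : Subgroup G) (hK : CoAmenable K) (A : I → J → (G →₀ ℂ)) (C : Finset J)
    (d : J → ℝ) (hU : BlockOutputs K A C d) :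
    dimension (kernel A) ≤ Fintype.card J - ∑ j ∈ C, (1 - d j) := by
  classical
  rw [kerDim_eq]
  have h1 := PM.mainG K hK A (fun j => if j ∈ C then d j else 1) (by
    intro Z hZ
    by_cases hC : ∀ p ∈ Z, p.2 ∈ C
    · obtain ⟨x, y, O, P, hP, hPZ, huniq, hle⟩ := hU Z hZ hC
      refine Or.inr ⟨x, y, O, P, hP, hPZ, huniq, ?_⟩
      rw [blockDim_eq] at hle
      refine hle.trans (le_of_eq ?_)
      refine Finset.sum_congr rfl fun j hj => ?_
      exact (if_pos (hC (x, j) (hPZ j hj))).symm
    · push Not at hC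
      obtain ⟨p, hp, hpC⟩ := hC
      exact Or.inl ⟨p, hp, le_of_eq (if_neg hpC).symm⟩)
  refine h1.trans (le_of_eq ?_)
  have h2 : ∀ j : J, (if j ∈ C then d j else 1) = 1 - if j ∈ C then (1 - d j) else 0 := by
    intro j
    split_ifs <;> ring
  rw [Finset.sum_congr rfl fun j _ => h2 j, Finset.sum_sub_distrib, Finset.sum_ite_mem,
    Finset.univ_inter]
  simp

theorem lower_bound (A : I → J → (G →₀ ℂ)) :
    (Fintype.card J : ℝ) - Fintype.card I ≤ dimension (kernel A) := by
  rw [kerDim_eq]
  have h1 := W649.ZL.ker_add_range (LB.opM A) (LB.opM_eqv A)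
  have h2 : W649.ZL.vd (LinearMap.range (LB.opM A : W649.ZL.EE G J →ₗ[ℂ] W649.ZL.EE G I))
      ≤ Fintype.card I := W649.ZL.vd_le_card _
  linarith

theorem zero_of_dim (A : I → J → (G →₀ ℂ)) (h : dimension (kernel A) ≤ 0) :
    ∀ f ∈ kernel A, f = 0 := by
  rw [kerDim_eq] at h
  have h1 := W649.ZL.injective_of_vd_eq_zero _ (LB.opM_eqv A) h
  rw [kernel_eq]
  rw [injective_iff_map_eq_zero] at h1
  exact fun f hf => h1 f hf

/-- right translate of an element of the group algebra -/
theorem cop_right (a : G) (α : G →₀ ℂ) :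
    W649.ZL.cop (α.mapDomain (fun x => x * a)) = (W649.ZL.cop α).comp (W649.ZL.Ltr a) := by
  induction α using Finsupp.induction_linear with
  | zero => rw [Finsupp.mapDomain_zero, map_zero, ContinuousLinearMap.zero_comp]
  | add p q hp hq => rw [Finsupp.mapDomain_add, map_add, hp, hq, map_add,
      ContinuousLinearMap.add_comp]
  | single x c =>
    rw [Finsupp.mapDomain_single, W649.ZL.cop_single, W649.ZL.cop_single, W649.ZL.Ltr_mul,
      ContinuousLinearMap.smul_comp]

theorem part_injective (K : Subgroup G) (hreg : ∀ β : K →₀ ℂ, β ≠ 0 → Regular β) (α : G →₀ ℂ)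
    (x y : G ⧸ K) (h : part K α x y ≠ 0) : Function.Injective (W649.ZL.cop (part K α x y)) := by
  classical
  obtain ⟨a, rfl⟩ := QuotientGroup.mk_surjective x
  obtain ⟨b, rfl⟩ := QuotientGroup.mk_surjective y
  set π := part K α (a : G ⧸ K) (b : G ⧸ K) with hπ
  set δ := π.mapDomain (fun s => b⁻¹ * s) with hδ
  set γ := δ.mapDomain (fun s => s * a) with hγ
  have hinj1 : Function.Injective (fun s : G => b⁻¹ * s) := mul_right_injective b⁻¹
  have hinj2 : Function.Injective (fun s : G => s * a) := mul_left_injective a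
  have hγ0 : γ ≠ 0 := by
    intro h0
    apply h
    apply Finsupp.mapDomain_injective hinj1
    rw [Finsupp.mapDomain_zero, ← hδ]
    apply Finsupp.mapDomain_injective hinj2
    rw [Finsupp.mapDomain_zero, ← hγ, h0]
  have hsup : ∀ t ∈ γ.support, t ∈ K := by
    intro t ht
    rw [hγ, Finsupp.mapDomain_support_of_injective hinj2, Finset.mem_image] at ht
    obtain ⟨u, hu, rfl⟩ := ht
    rw [hδ, Finsupp.mapDomain_support_of_injective hinj1, Finset.mem_image] at hu
    obtain ⟨s, hs, rfl⟩ := hu
    have h1 := ((mem_cpart K α (a : G ⧸ K) (b : G ⧸ K) s).1 hs).2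
    have h2 : ((b : G) : G ⧸ K) = ((s * a : G) : G ⧸ K) := h1.symm
    rw [QuotientGroup.eq] at h2
    change b⁻¹ * s * a ∈ K
    rw [mul_assoc]
    exact h2
  have h1 : Function.Injective (W649.ZL.cop γ) := by
    apply W649.ZL.injective_of_subgroup K γ hsup
    apply (W649.ZL.regular_iff _).1
    apply hreg
    intro h0
    apply hγ0
    ext t
    by_cases ht : t ∈ γ.support
    · have h2 := DFunLike.congr_fun h0 ⟨t, hsup t ht⟩
      rw [Finsupp.comapDomain_apply] at h2
      exact h2
    · exact Finsupp.notMem_support_iff.1 ht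
  have h2 : Function.Injective (W649.ZL.cop δ) := by
    have h3 : W649.ZL.cop δ = (W649.ZL.cop γ).comp (W649.ZL.Ltr a⁻¹) := by
      rw [hγ, cop_right, ContinuousLinearMap.comp_assoc, ← W649.ZL.Ltr_mul, mul_inv_cancel,
        W649.ZL.Ltr_one, ContinuousLinearMap.comp_id]
    rw [h3]
    exact h1.comp (W649.ZL.Ltr_injective a⁻¹)
  rw [hδ, W649.ZL.cop_mapDomain] at h2
  exact Function.Injective.of_comp (f := W649.ZL.Ltr b⁻¹) h2

theorem of_unique (K : Subgroup G) (A : I → J → (G →₀ ℂ)) (C : Finset J)
    (hU : UniqueOutputs K A C) (hR : RegularParts K A C) : BlockOutputs K A C (fun _ => 0) := by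
  classical
  intro Z hZ hC
  obtain ⟨⟨x, j⟩, hp, i, t, ht, huniq⟩ := hU Z hZ hC
  refine ⟨x, move t x, {i}, {j}, Finset.singleton_nonempty _, ?_, ?_, ?_⟩
  · intro k hk
    rw [Finset.mem_singleton.1 hk]
    exact hp
  · intro q hq
    by_cases hqp : q = (x, j)
    · left
      subst hqp
      exact ⟨rfl, Finset.mem_singleton_self _⟩
    · right
      intro i' hi' s hs he
      rw [Finset.mem_singleton.1 hi'] at hs
      exact hqp (huniq q hq s hs he)
  · rw [Finset.sum_const_zero]
    apply blockDim_zero
    rintro f ⟨h1, h2⟩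
    have hne : part K (A i j) x (move t x) ≠ 0 := by
      intro h0
      have h4 : t ∈ (cpart K (A i j) x (t • x)).support :=
        (mem_cpart K (A i j) x _ t).2 ⟨ht, rfl⟩
      change part K (A i j) x (move t x) = 0 at h0
      have h5 : cpart K (A i j) x (t • x) = 0 := h0
      rw [h5] at h4
      simp at h4
    have hreg := hR i j (hC _ hp) x (move t x) hne
    have hinj : Function.Injective (fun g : G => (g, j)) := fun a b h => congrArg Prod.fst h
    have hmem : Memℓp (fun g : G => f (g, j)) 2 := by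
      rw [W649.ZL.memlp_two_iff]
      exact ((W649.ZL.memlp_two_iff _).1 f.2).comp_injective hinj
    have hf0 : (fun g : G => f (g, j)) = 0 := by
      by_contra hne0
      obtain ⟨g, hg⟩ := hreg _ hmem hne0
      apply hg
      have h6 := h2 g i (Finset.mem_singleton_self _)
      rw [Finset.sum_singleton] at h6
      exact h6
    ext ⟨g, k⟩
    by_cases hk : k = j
    · subst hk
      exact congrFun hf0 g
    · exact h1 g k (fun h => hk (Finset.mem_singleton.1 h))

theorem of_leading (K : Subgroup G) (A : I → J → (G →₀ ℂ)) (C : Finset J)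
    (hL : LeadingBlocks K A C) : BlockOutputs K A C (fun _ => 0) := by
  classical
  obtain ⟨inst, hinv, hlead⟩ := hL
  intro Z hZ hC
  obtain ⟨p, hp, hmax⟩ := Finset.exists_max_image Z (fun p => p.1) hZ
  obtain ⟨y, hy, hker⟩ := hlead p.1
  set P : Finset J := (Z.filter fun q => q.1 = p.1).image Prod.snd with hPdef
  have hmemP : ∀ j, j ∈ P ↔ (p.1, j) ∈ Z := by
    intro j
    rw [hPdef, Finset.mem_image]
    constructor
    · rintro ⟨q, hq, rfl⟩
      obtain ⟨hqZ, hq1⟩ := Finset.mem_filter.1 hq
      rw [← hq1]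
      exact hqZ
    · intro h
      exact ⟨(p.1, j), Finset.mem_filter.2 ⟨h, rfl⟩, rfl⟩
  refine ⟨p.1, y, Finset.univ, P, ⟨p.2, (hmemP _).2 hp⟩, fun j hj => (hmemP j).1 hj, ?_, ?_⟩
  · intro q hq
    by_cases hqx : q.1 = p.1
    · left
      refine ⟨hqx, (hmemP _).2 ?_⟩
      rw [← hqx]
      exact hq
    · right
      intro i _ s hs
      have h1 : q.1 < p.1 := lt_of_le_of_ne (hmax q hq) hqx
      have h2 := hinv s q.1 p.1 h1
      exact ne_of_lt (h2.trans_le (hy i q.2 (hC q hq) s hs))
  · rw [Finset.sum_const_zero]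
    apply blockDim_zero
    rintro f ⟨h1, h2⟩
    apply hker f
    have hPC : P ⊆ C := fun j hj => hC _ ((hmemP j).1 hj)
    refine ⟨fun g j hj => h1 g j (fun h => hj (hPC h)), fun g i hi => ?_⟩
    rw [← Finset.sum_subset hPC]
    · exact h2 g i hi
    · intro j _ hj
      refine Finset.sum_eq_zero fun s _ => ?_
      rw [h1 _ j hj, mul_zero]

end

/-- **Matrices with unique blocks of outputs over a co-amenable subgroup.** Let `K` be a subgroup of
`G`, not necessarily normal, `A` an `I × J` matrix over the complex group algebra of `G` and `C` a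
set of columns.

1. If `K` is co-amenable and `BlockOutputs K A C d`, the kernel of `A` has at most the dimension
`|J| - ∑ j ∈ C, (1 - d j)`.
2. If `d = 0` and `|C| = |I|`, this dimension is `|J| - |I|`; if `d = 0` and `C = J`, the kernel is
zero.
3. `BlockOutputs` holds with `d = 0` if the columns in `C` have unique outputs and regular parts.
The parts are regular if `G` is torsion-free and they have at most two terms, and also if the
nonzero elements of the group algebra of `K` are regular.
4. `BlockOutputs` holds with `d = 0` if the leading blocks for an invariant total order on the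
cosets have zero kernel. -/
theorem result {G : Type u} [Group G] (K : Subgroup G) {I : Type v} {J : Type w} [Fintype I]
    [Fintype J] (A : I → J → (G →₀ ℂ)) (C : Finset J) :
    (CoAmenable K → ∀ d : J → ℝ, BlockOutputs K A C d →
      dimension (kernel A) ≤ Fintype.card J - ∑ j ∈ C, (1 - d j)) ∧
    (CoAmenable K → BlockOutputs K A C (fun _ => 0) →
      (C.card = Fintype.card I → dimension (kernel A) = Fintype.card J - Fintype.card I) ∧
      ((∀ j, j ∈ C) → ∀ f ∈ kernel A, f = 0)) ∧
    (UniqueOutputs K A C → RegularParts K A C → BlockOutputs K A C (fun _ => 0)) ∧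
    ((∀ g : G, ∀ n : ℕ, 0 < n → g ^ n = 1 → g = 1) →
      (∀ i, ∀ j ∈ C, ∀ x y : G ⧸ K, (part K (A i j) x y).support.card ≤ 2) →
      RegularParts K A C) ∧
    ((∀ β : K →₀ ℂ, β ≠ 0 → Regular β) → RegularParts K A C) ∧
    (LeadingBlocks K A C → BlockOutputs K A C (fun _ => 0)) := by
  classical
  refine ⟨fun hK d hU => bound K hK A C d hU, fun hK hU => ?_, of_unique K A C, ?_, ?_,
    of_leading K A C⟩
  · have h1 : dimension (kernel A) ≤ Fintype.card J - C.card := by
      refine (bound K hK A C (fun _ => 0) hU).trans (le_of_eq ?_)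
      simp
    refine ⟨fun hCI => ?_, fun hC => ?_⟩
    · apply le_antisymm
      · rw [hCI] at h1
        exact h1
      · exact lower_bound A
    · apply zero_of_dim A
      have h2 : C = Finset.univ := Finset.eq_univ_iff_forall.2 hC
      rw [h2, Finset.card_univ, sub_self] at h1
      exact h1
  · intro htf h2 i j hj x y h0
    exact (W649.ZL.regular_iff _).2 (injective_le_two htf _ h0 (h2 i j hj x y))
  · intro hreg i j hj x y h0
    exact (W649.ZL.regular_iff _).2 (part_injective K hreg (A i j) x y h0)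

end Pool.Agent.Results.MP_95030e_al.OutputMatrices
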