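import Pool.Agent.Q91.TE.Trop
import Pool.Agent.Q91.TE.Two

set_option autoImplicit false
set_option linter.unusedSectionVars false

universe u

namespace Pool.Agent.Results.MP_95030e_al.TropicallyNonsingular

open Pool.Agent.Q91.TE Pool.Agent.W649.ZL

/-- The kernel of right multiplication by the matrix `A` over the complex group ring on row vectors
of length `m` over `ℓ²(G)`: all square-summable `x` with `x A = 0`. -/
def kernel {G : Type u} [Group G] {m l : ℕ} (A : Matrix (Fin m) (Fin l) (G →₀ ℂ)) :
    Set (lp (fun _ : Fin m × G => ℂ) 2) :=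
  {x | ∀ (j : Fin l) (g : G),
    ∑ k : Fin m, ∑ h ∈ (A k j).support, x (k, g * h⁻¹) * A k j h = 0}

open Classical in
/-- The von Neumann dimension of that kernel: the sum over `i` of one minus the square of the
distance from the basis vector at `(i, 1)` to the kernel, that is, the sum of the squared lengths
of the projections of these vectors to the kernel. -/
noncomputable def kerDim {G : Type u} [Group G] {m l : ℕ}
    (A : Matrix (Fin m) (Fin l) (G →₀ ℂ)) : ℝ :=
  ∑ i : Fin m, (1 - Metric.infDist
    (lp.single (E := fun _ : Fin m × G => ℂ) 2 (i, (1 : G)) (1 : ℂ)) (kernel A) ^ 2)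

/-- The one-by-one matrix with the entry `a`. -/
def entry {G : Type u} (a : G →₀ ℂ) : Matrix (Fin 1) (Fin 1) (G →₀ ℂ) := fun _ _ => a

open Classical in
/-- The part of `a` on the elements `t` with `x t y⁻¹` in `K` and `φ (x t y⁻¹) = v`. -/
noncomputable def part {G : Type u} [Group G] (K : Subgroup G) (φ : K →* Multiplicative ℤ)
    (x y : G) (v : ℤ) (a : G →₀ ℂ) : G →₀ ℂ :=
  a.filter fun t => ∃ h : x * t * y⁻¹ ∈ K, Multiplicative.toAdd (φ ⟨x * t * y⁻¹, h⟩) = v

theorem kerDim_eq {G : Type u} [Group G] {m l : ℕ} (A : Matrix (Fin m) (Fin l) (G →₀ ℂ)) :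
    kerDim A = kerDimM A := by
  unfold kerDim kerDimM
  refine Finset.sum_congr rfl fun i _ => ?_
  congr 3

/-- **Tropically nonsingular matrices.** Let `G` be any group, `A` an `n × n` matrix over the
complex group algebra of `G`, `K` a subgroup with a homomorphism `φ` to the integers and
`x i`, `y j` elements of `G` with `x i * t * (y j)⁻¹` in `K` for all `t` in the support of `A i j`
(for example `K = G`, `x i = y j = 1`). Let `v i j` be at most the minimum of
`φ (x i * t * (y j)⁻¹)` over these `t`. Suppose that among the permutations `τ` with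
`A i (τ i) ≠ 0` for all `i` the sum `∑ i, v i (τ i)` has its minimum at `σ` and only there.

1. The von Neumann dimension of the kernel of `A` on `ℓ²(G)ⁿ` is at most the sum over `i` of those
   of the parts of `A i (σ i)` on which `φ (x i * t * (y (σ i))⁻¹)` is equal to `v i (σ i)`.
2. If `G` is torsion-free and these parts are not zero and have at most two terms each, then
   `z A ≠ 0` for all nonzero `z` in `ℓ²(G)ⁿ`, so this dimension is `0`. -/
theorem result {G : Type u} [Group G] (K : Subgroup G) (φ : K →* Multiplicative ℤ) {n : ℕ}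
    (A : Matrix (Fin n) (Fin n) (G →₀ ℂ)) (x y : Fin n → G)
    (hK : ∀ i j, ∀ t ∈ (A i j).support, x i * t * (y j)⁻¹ ∈ K) (v : Fin n → Fin n → ℤ)
    (hv : ∀ i j t (ht : t ∈ (A i j).support),
      v i j ≤ Multiplicative.toAdd (φ ⟨x i * t * (y j)⁻¹, hK i j t ht⟩))
    (σ : Equiv.Perm (Fin n)) (hσ : ∀ i, A i (σ i) ≠ 0)
    (hmin : ∀ τ : Equiv.Perm (Fin n), τ ≠ σ → (∀ i, A i (τ i) ≠ 0) →
      ∑ i, v i (σ i) < ∑ i, v i (τ i)) :
    kerDim A ≤ ∑ i, kerDim (entry (part K φ (x i) (y (σ i)) (v i (σ i)) (A i (σ i)))) ∧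
    ((∀ g : G, ∀ k : ℕ, 0 < k → g ^ k = 1 → g = 1) →
      (∀ i, part K φ (x i) (y (σ i)) (v i (σ i)) (A i (σ i)) ≠ 0 ∧
        (part K φ (x i) (y (σ i)) (v i (σ i)) (A i (σ i))).support.card ≤ 2) →
      kerDim A = 0 ∧ ∀ z ∈ kernel A, z = 0) := by
  classical
  have key : kerDim A ≤ ∑ i, kerDim (entry (part K φ (x i) (y (σ i)) (v i (σ i))
      (A i (σ i)))) := by
    rw [kerDim_eq]
    refine (trop A K φ x y hK v hv σ hσ hmin).trans ?_
    refine (monomial σ (fun i => part K φ (x i) (y (σ i)) (v i (σ i)) (A i (σ i))) _ ?_ ?_).trans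
      (le_of_eq ?_)
    · intro i
      rw [if_pos rfl]
      unfold part
      congr
    · intro i j hj
      rw [if_neg hj]
    · refine Finset.sum_congr rfl fun i _ => ?_
      rw [kerDim_eq]
      rfl
  refine ⟨key, fun htf h2 => ?_⟩
  have h3 : kerDim A ≤ 0 := by
    refine key.trans (le_of_eq ?_)
    refine Finset.sum_eq_zero fun i _ => ?_
    rw [kerDim_eq]
    exact kerDimM_zero _ fun z hz => kernM_le_two htf _ (h2 i).1 (h2 i).2 z hz
  have h4 : ∀ z ∈ kernel A, z = 0 := by
    intro z hz
    rw [kerDim_eq] at h3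
    exact kernM_zero A h3 z hz
  refine ⟨?_, h4⟩
  have h5 : kernel A = {0} := by
    ext z
    constructor
    · intro hz; exact h4 z hz
    · rintro rfl
      intro j g
      exact Finset.sum_eq_zero fun k _ => Finset.sum_eq_zero fun h _ => by
        rw [lp.coeFn_zero, Pi.zero_apply, zero_mul]
  unfold kerDim
  rw [h5]
  simp

end Pool.Agent.Results.MP_95030e_al.TropicallyNonsingular
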