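import Pool.Agent.Q102.TT.Adj
import Pool.Agent.Q102.TT.Red
import Pool.Agent.Results.MP_95030e_al.AllOrNothing

set_option autoImplicit false

noncomputable section

namespace Pool.Agent.Results.MP_95030e_al.TwoOrThreeTerms

open Pool.Agent.Results.MP_95030e_al.AllOrNothing

/-- The number of terms of an element of `ℂ[G]`: the number of nonzero coefficients. -/
def terms {G : Type} (x : G →₀ ℂ) : ℕ := x.support.card

/-- The sum of the absolute values of the coefficients of an element of `ℤ[G]`. -/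
def absSum {G : Type} (x : G →₀ ℤ) : ℕ := x.sum fun _ c => c.natAbs

/-- In every row and in every column of the integer matrix `B`, the absolute values of all
coefficients of all entries have sum at most `3`. -/
def AtMostThree {G : Type} {m n : ℕ} (B : Matrix (Fin m) (Fin n) (G →₀ ℤ)) : Prop :=
  (∀ i, ∑ j, absSum (B i j) ≤ 3) ∧ ∀ j, ∑ i, absSum (B i j) ≤ 3

/-- A matrix over `ℚ[G]` as a matrix over `ℂ[G]`. -/
def ofRat {G : Type} {m n : ℕ} (A : Matrix (Fin m) (Fin n) (G →₀ ℚ)) :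
    Matrix (Fin m) (Fin n) (G →₀ ℂ) :=
  fun i j => (A i j).mapRange (fun q : ℚ => (q : ℂ)) Rat.cast_zero

/-- A matrix over `ℤ[G]` as a matrix over `ℂ[G]`. -/
def ofInt {G : Type} {m n : ℕ} (A : Matrix (Fin m) (Fin n) (G →₀ ℤ)) :
    Matrix (Fin m) (Fin n) (G →₀ ℂ) :=
  fun i j => (A i j).mapRange (fun z : ℤ => (z : ℂ)) Int.cast_zero

open Pool.Agent.Q102.TT Pool.Agent.W649.ZL
open TH57.Thr.Ati hiding kerDim

/-- the matrix over the group ring -/
def mk {G : Type} [Group G] {m n : ℕ} (A : Matrix (Fin m) (Fin n) (G →₀ ℂ)) :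
    Matrix (Fin m) (Fin n) (MonoidAlgebra ℂ G) := A.map MonoidAlgebra.ofCoeff

/-- the matrix of the coefficients -/
def un {G : Type} [Group G] {m n : ℕ} (A : Matrix (Fin m) (Fin n) (MonoidAlgebra ℤ G)) :
    Matrix (Fin m) (Fin n) (G →₀ ℤ) := A.map MonoidAlgebra.coeff

/-- the two forms of the kernel dimension -/
theorem kerDim_kap {G : Type} [Group G] {m n : ℕ} (A : Matrix (Fin m) (Fin n) (G →₀ ℂ)) :
    kerDim A = kap (mk A) := by
  classical
  rw [← kerC_dim (mk A)]
  unfold kerDim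
  rfl

theorem kerDim_ofInt {G : Type} [Group G] {m n : ℕ}
    (B : Matrix (Fin m) (Fin n) (MonoidAlgebra ℤ G)) : kerDim (ofInt (un B)) = kap (toC B) := by
  rw [kerDim_kap]
  congr 1

/-- a matrix over `ℚ[G]`, replaced -/
theorem red_rat {G : Type} [Group G] {m n : ℕ} (A : Matrix (Fin m) (Fin n) (G →₀ ℚ)) :
    ∃ (m' n' : ℕ) (B : Matrix (Fin m') (Fin n') (G →₀ ℤ)), AtMostThree B ∧
      kerDim (ofInt B) = kerDim (ofRat A) := by
  obtain ⟨N, A', hN, hA'⟩ := exists_int A
  obtain ⟨m', n', B, h1, h2, h3⟩ := red_fin A'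
  refine ⟨m', n', un B, ⟨h3, h2⟩, ?_⟩
  rw [kerDim_ofInt, kerDim_kap]
  change kap (toC B) = kap (qC A)
  rw [h1, hA', kap_smul _ _ (by exact_mod_cast hN)]

/-- **Two or three terms.** -/
theorem result :
    (∀ (G : Type) [Group G], TorsionFree G → ∀ (m n : ℕ) (A : Matrix (Fin m) (Fin n) (G →₀ ℂ)),
      ((∀ j, ∑ i, terms (A i j) ≤ 2) ∨ ∀ i, ∑ j, terms (A i j) ≤ 2) → ∃ z : ℤ, kerDim A = z) ∧
    (∀ (G : Type) [Group G] (m n : ℕ) (A : Matrix (Fin m) (Fin n) (G →₀ ℚ)),
      ∃ (m' n' : ℕ) (B : Matrix (Fin m') (Fin n') (G →₀ ℤ)), AtMostThree B ∧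
        kerDim (ofInt B) = kerDim (ofRat A)) ∧
    ∀ C : (G : Type) → [Group G] → Prop, ClosedClass C →
      (∀ (G : Type) [Group G], C G → ∀ (m n : ℕ) (A : Matrix (Fin m) (Fin n) (G →₀ ℂ)),
        ∃ z : ℤ, kerDim A = z) ∨
      ∀ r : ℝ, 0 ≤ r → ∃ (G : Type) (_ : Group G), C G ∧ Group.FG G ∧
        ∃ (m n : ℕ) (B : Matrix (Fin m) (Fin n) (G →₀ ℤ)), AtMostThree B ∧
          kerDim (ofInt B) = r := by
  refine ⟨?_, fun G _ m n A => red_rat A, ?_⟩
  · intro G _ htf m n A h
    rw [kerDim_kap]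
    exact kap_two htf _ h
  · intro C hC
    by_cases h1 : ∀ (G : Type) [Group G], C G → ∀ (m n : ℕ)
        (A : Matrix (Fin m) (Fin n) (G →₀ ℂ)), ∃ z : ℤ, kerDim A = z
    · exact Or.inl h1
    · right
      intro r hr
      have h2 := (AllOrNothing.result.2 C hC ⊥).out 1 0
      by_contra hno
      apply h1
      rw [← h2]
      refine ⟨r, hr, ?_⟩
      intro G _ hG hfg m n A hA hAr
      apply hno
      have h3 : ∀ i j g, ∃ z : ℤ, (z : ℂ) = A i j g := fun i j g => Subring.mem_bot.1 (hA i j g)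
      choose z hz using h3
      let A' : Matrix (Fin m) (Fin n) (G →₀ ℚ) := fun i j =>
        Finsupp.onFinset (A i j).support (fun g => (z i j g : ℚ)) (by
          intro g hg
          rw [Finsupp.mem_support_iff, ← hz]
          intro h0
          apply hg
          have : z i j g = 0 := by exact_mod_cast h0
          rw [this]
          simp)
      obtain ⟨m', n', B, hB, hBr⟩ := red_rat A'
      refine ⟨G, inferInstance, hG, hfg, m', n', B, hB, ?_⟩
      rw [hBr, ← hAr]
      congr 1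
      funext i j
      ext g
      change (((z i j g : ℤ) : ℚ) : ℂ) = A i j g
      rw [← hz]
      push_cast
      rfl

end Pool.Agent.Results.MP_95030e_al.TwoOrThreeTerms
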